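import Pool.Agent.Helper9CH.ProdK
import Pool.Agent.Helper9CH.CloneMA
import Pool.Agent.Results.MP_174cbb_lc.SingularFailure

/-!
# It is consistent that the clone lattice on a set of singular cardinality is not dually atomic

For every uncountable set `X` (for instance `#X = ℵ_ω`) one can force Martin's axiom for `#X`
dense sets together with `𝔠 ≤ (#X)⁺`, preserving all cardinals up to `#X`. These two sentences
imply that every family of fewer than `2 ^ #X` dense open subsets of `ℕ ^ X` has a common point,
and then the clone lattice on `X` is not dually atomic.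

The forcing language is the one of `Pool.Agent.Helper669.Forcing`: a sentence is the set of the
conditions which force it, `fnot`, `fand`, `fall` are the primitive connectives and `fimp`, `fex`
are defined from them classically; a name for a subset of a ground model set `X` is a map sending
`x : X` to a set of conditions, and `meets N` says that the generic filter meets `N`. The sentence
`MartinHolds P X` is the translation into the forcing language of the proposition `MartinFor X`
(both are in `Pool.Agent.W684.FM.Defs`), which is Martin's axiom for preorders with underlying set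
`X` and `X`-indexed families of dense sets; `ContinuumLe P Y` says that in the extension there is a
map from `Y` onto the set of all functions from the natural numbers to themselves.
-/

set_option autoImplicit false

namespace Pool.Agent.Results.MP_174cbb_lc.SingularForced

open Cardinal Ordinal Pool.Agent.Helper669.Forcing Pool.Agent.W684.FM Pool.Agent.Helper9CH
open Pool.Agent.Results.MP_174cbb_lc.Regular

theorem singular : (ℵ_ ω : Cardinal.{0}).ord.cof < ℵ_ ω := by
  rw [Cardinal.ord_aleph, Ordinal.cof_omega Ordinal.isSuccLimit_omega0, Ordinal.cof_omega0]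
  exact Cardinal.aleph0_lt_aleph.2 Ordinal.omega0_pos

/-- (1) For every uncountable set `X` some notion of forcing `P` forces, below every condition,
that `ω₁` is preserved, that all cardinals up to `#X` are preserved, that Martin's axiom for `#X`
dense sets holds and that there is a map from the ground model cardinal `(#X)⁺` onto `ℕ^ℕ`.
(2), (3) The plain forms of the two latter sentences are Martin's axiom for `#X` dense sets and
`𝔠 ≤ (#X)⁺`. (4) These imply that every family of fewer than `2 ^ #X` dense open subsets of `ℕ ^ X`
has a common point, and (5) that the clone lattice on `X` is not dually atomic. (6), (7) This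
applies in particular to sets of cardinality `ℵ_ω`, a singular cardinal. -/
theorem result :
    (∀ X : Type, ℵ₁ ≤ #X → ∃ (P : Type) (_ : Preorder P), Nonempty P ∧ ∀ p : P,
      p ∈ OmegaOnePreserved P ∧ p ∈ CardinalsPreservedUpTo P #X ∧
        p ∈ MartinHolds P X ∧ p ∈ ContinuumLe P (Order.succ #X).out) ∧
    (∀ X : Type, Infinite X → (MartinFor X ↔ MartinAxiomCard #X)) ∧
    (∀ X : Type, (∃ E : (Order.succ #X).out → ℕ → ℕ, Function.Surjective E) ↔
      (𝔠 : Cardinal.{0}) ≤ Order.succ #X) ∧
    (∀ X : Type, Infinite X → MartinAxiomCard #X → (𝔠 : Cardinal.{0}) ≤ Order.succ #X →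
      ∀ 𝓓 : Set (Set (X → ℕ)), #𝓓 < 2 ^ #X → (∀ D ∈ 𝓓, IsOpen D ∧ Dense D) →
        (⋂₀ 𝓓).Nonempty) ∧
    (∀ X : Type, Infinite X → MartinAxiomCard #X → (𝔠 : Cardinal.{0}) ≤ Order.succ #X →
      ¬ DuallyAtomic X) ∧
    (MartinAxiomCard (ℵ_ ω) → (𝔠 : Cardinal.{0}) ≤ Order.succ (ℵ_ ω) →
      ∀ X : Type, #X = ℵ_ ω → ¬ DuallyAtomic X) ∧
    (ℵ_ ω : Cardinal.{0}).ord.cof < ℵ_ ω := by
  have h5 : ∀ X : Type, Infinite X → MartinAxiomCard #X → (𝔠 : Cardinal.{0}) ≤ Order.succ #X →
      ¬ DuallyAtomic X := fun X _ hMA hc => SingularFailure.result X (baire_of_ma hMA hc)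
  refine ⟨exists_forcingK, fun X _ => martinFor_iff, fun X => ?_, fun X _ hMA hc =>
    baire_of_ma hMA hc, h5, fun hMA hc X hX => ?_, singular⟩
  · have h1 : #(ℕ → ℕ) = (𝔠 : Cardinal.{0}) := by
      simp
    constructor
    · rintro ⟨E, hE⟩
      have h2 := mk_le_of_surjective hE
      rwa [h1, mk_out] at h2
    · intro h
      rw [← h1, ← mk_out (Order.succ #X)] at h
      obtain ⟨e⟩ := h
      exact ⟨Function.invFun e, Function.invFun_surjective e.injective⟩
  · have hXi : Infinite X := by
      rw [Cardinal.infinite_iff, hX]
      exact aleph0_le_aleph _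
    exact h5 X hXi (by rwa [hX]) (by rwa [hX])

end Pool.Agent.Results.MP_174cbb_lc.SingularForced
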